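import Pool.Agent.T2h18.DC.Main

set_option autoImplicit false

/-!
# Vertex Decomposition into Small Dominator Clusters is fixed-parameter tractable for every fixed `d`
-/

namespace Pool.Agent.Results.MP_3feab3_lc.EveryDominationNumber

open Pool.Agent.H633R2 Pool.Agent.T2h18.DC

/-- For every fixed `d ≥ 1` there is an algorithm which, for a graph `G` (given by its adjacency matrix)
and a number `k`, decides in time `h(k) * p(|(G, k)|)` (`h` computable, `p` a polynomial) whether there is
a set `S` of at most `k` vertices such that each connected component of `G - S` has domination number at
most `d`, and which returns such a set if there is one. -/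
theorem result : ∀ d : ℕ, 1 ≤ d →
    ∃ f : List (List Bool) × ℕ → Bool × List Bool, FptTime (fun x => x.2) f ∧
      ∀ x, ((f x).1 = true ↔ SmallDominatorClusters d x) ∧
        (SmallDominatorClusters d x → IsSolution d x (setOf x (f x).2)) :=
  main

end Pool.Agent.Results.MP_3feab3_lc.EveryDominationNumber
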